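import Mathlib

/-!
# An algebraic spatial lattice without strongly spatial extensions in its variety

Let `J` consist of `p`, `x_n`, `y_n` (`n ≥ 0`), ordered by `x_{n+1}, y_{n+1} < x_n`, and let
`L` be the lattice of all down-sets `A` of `J` such that `p ∈ A` whenever
`x_n, y_n, …, y_0 ∈ A` for some `n`.  This is an algebraic spatial lattice.  Suppose that `L` is
a sublattice of a strongly spatial lattice `M` that satisfies all identities of `L`, and let `r`
be a point of `M` with `r ≤ p` and `r ≰ 0_L`.  A minimal join-cover `I ≤ref {x_0, y_0}` of `r`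
refines, by an identity of `L`, each join-cover `{x_n, y_n, …, y_0}`, and this forces
`I` to be infinite.
-/

namespace Pool.Agent.Results.MP_de5398_al.NotStronglySpatial

universe u v

/-! ### Definitions -/

section defs

variable {L : Type u} [Lattice L]

/-- `p` is a point (completely join-irreducible): `{x : x < p}` has a largest element. -/
def IsPoint (p : L) : Prop := ∃ q : L, IsGreatest {x : L | x < p} q

/-- `a` is compact. -/
def IsCompactElt (a : L) : Prop :=
  ∀ (D : Set L) (s : L), D.Nonempty → DirectedOn (· ≤ ·) D → IsLUB D s → a ≤ s → ∃ d ∈ D, a ≤ d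

/-- `X` refines `Y`. -/
def Refines (X Y : Set L) : Prop := ∀ x ∈ X, ∃ y ∈ Y, x ≤ y

/-- `X` is a join-cover of `p`: it is finite and `p ≤ ⋁ X`. -/
def IsJoinCover (X : Set L) (p : L) : Prop := X.Finite ∧ ∃ s, IsLUB X s ∧ p ≤ s

/-- `I` is a minimal join-cover of `p`. -/
def IsMinimalCover (I : Set L) (p : L) : Prop :=
  IsJoinCover I p ∧ ∀ Y : Set L, IsJoinCover Y p → Refines Y I → I ⊆ Y

end defs

/-- `L` is spatial: every element is a join of points. -/
def IsSpatial (L : Type u) [Lattice L] : Prop :=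
  ∀ a : L, ∃ S : Set L, (∀ p ∈ S, IsPoint p) ∧ IsLUB S a

/-- `L` is algebraic: it is complete and every element is a join of compact elements. -/
def IsAlgebraic (L : Type u) [Lattice L] : Prop :=
  (∀ S : Set L, (∃ s, IsLUB S s) ∧ ∃ s, IsGLB S s) ∧
    ∀ a : L, ∃ S : Set L, (∀ c ∈ S, IsCompactElt c) ∧ IsLUB S a

/-- `L` is strongly spatial: it is spatial, and for every point `p` and every join-cover `X` of
`p` there is a minimal join-cover of `p` that consists of points and refines `X`. -/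
def IsStronglySpatial (L : Type u) [Lattice L] : Prop :=
  IsSpatial L ∧ ∀ p : L, IsPoint p → ∀ X : Set L, IsJoinCover X p →
    ∃ I : Set L, IsMinimalCover I p ∧ (∀ q ∈ I, IsPoint q) ∧ Refines I X

/-- Lattice terms in the variables `x_0, x_1, …`. -/
inductive LTerm : Type
  | var : ℕ → LTerm
  | sup : LTerm → LTerm → LTerm
  | inf : LTerm → LTerm → LTerm

/-- The value of a lattice term. -/
def LTerm.eval {L : Type u} [Lattice L] (a : ℕ → L) : LTerm → L
  | .var i => a i
  | .sup s t => s.eval a ⊔ t.eval a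
  | .inf s t => s.eval a ⊓ t.eval a

/-- The identity `s ≈ t` holds in `L`. -/
def HoldsIn (L : Type u) [Lattice L] (s t : LTerm) : Prop :=
  ∀ a : ℕ → L, s.eval a = t.eval a

/-- `L` embeds within its variety into `M`. -/
def EmbedsWithinVariety (L : Type u) [Lattice L] (M : Type v) [Lattice M] : Prop :=
  (∃ f : LatticeHom L M, Function.Injective f) ∧ ∀ s t : LTerm, HoldsIn L s t → HoldsIn M s t

open LTerm

/-! ### The identities -/

/-- the join of the terms in a list and a term -/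
def bigSup (l : List LTerm) (t : LTerm) : LTerm := l.foldr sup t

theorem bigSup_le {L : Type u} [Lattice L] (a : ℕ → L) (l : List LTerm)
    (t : LTerm) (z : L) :
    (bigSup l t).eval a ≤ z ↔ t.eval a ≤ z ∧ ∀ r ∈ l, r.eval a ≤ z := by
  induction l with
  | nil => simp [bigSup]
  | cons r l ih =>
    have : bigSup (r :: l) t = sup r (bigSup l t) := rfl
    rw [this]
    simp only [eval, sup_le_iff, ih, List.forall_mem_cons]
    tauto

/-- `⋁_{i ≤ m} f i` -/
def join (m : ℕ) (f : ℕ → LTerm) : LTerm := bigSup ((List.range (m + 1)).map f) (f 0)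

theorem join_le {L : Type u} [Lattice L] (a : ℕ → L) (m : ℕ) (f : ℕ → LTerm) (z : L) :
    (join m f).eval a ≤ z ↔ ∀ i ≤ m, (f i).eval a ≤ z := by
  unfold join
  rw [bigSup_le]
  simp only [List.mem_map, List.mem_range]
  constructor
  · rintro ⟨_, h⟩ i hi
    exact h (f i) ⟨i, by omega, rfl⟩
  · intro h
    refine ⟨h 0 (Nat.zero_le _), ?_⟩
    rintro r ⟨i, hi, rfl⟩
    exact h i (by omega)

/-- the variable `r` -/
def vr : LTerm := var 0

/-- the variables `u_i` -/
def vu (i : ℕ) : LTerm := var (2 * i + 1)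

/-- the variables `z_j` -/
def vz (j : ℕ) : LTerm := var (2 * j + 2)

/-- `r ∧ ⋁ u_i ∧ ⋁ z_j` -/
def lhs (m k : ℕ) : LTerm := inf vr (inf (join m vu) (join k vz))

/-- `⋁ (r ∧ u_i) ∨ ⋁ (r ∧ z_j) ∨ (r ∧ ⋁ (u_i ∧ z_j))` -/
def rhs (m k : ℕ) : LTerm :=
  sup (join m (fun i => inf vr (vu i)))
    (sup (join k (fun j => inf vr (vz j)))
      (inf vr (join m (fun i => join k (fun j => inf (vu i) (vz j))))))

/-! ### The lattice `L` -/

/-- The underlying set of join-irreducible elements. -/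
inductive J : Type
  | p : J
  | x : ℕ → J
  | y : ℕ → J

/-- down-sets -/
def Down (A : Set J) : Prop := ∀ n, J.x n ∈ A → J.x (n + 1) ∈ A ∧ J.y (n + 1) ∈ A

/-- `x_n, y_n, …, y_0 ∈ A` for some `n` -/
def Rule (A : Set J) : Prop := ∃ n, J.x n ∈ A ∧ ∀ i ≤ n, J.y i ∈ A

/-- closed sets -/
def Closed (A : Set J) : Prop := Down A ∧ (Rule A → J.p ∈ A)

/-- The lattice `L` of closed subsets of `J`. -/
def CL : Type := {A : Set J // Closed A}

/-- the closure of a down-set -/
def cl (A : Set J) : Set J := {q | q ∈ A ∨ (q = J.p ∧ Rule A)}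

theorem subset_cl (A : Set J) : A ⊆ cl A := fun _ h => Or.inl h

theorem mem_cl_x {A : Set J} {n : ℕ} : J.x n ∈ cl A ↔ J.x n ∈ A := by
  constructor
  · rintro (h | ⟨h, _⟩)
    · exact h
    · cases h
  · exact Or.inl

theorem mem_cl_y {A : Set J} {n : ℕ} : J.y n ∈ cl A ↔ J.y n ∈ A := by
  constructor
  · rintro (h | ⟨h, _⟩)
    · exact h
    · cases h
  · exact Or.inl

theorem mem_cl_p {A : Set J} : J.p ∈ cl A ↔ J.p ∈ A ∨ Rule A := by
  constructor
  · rintro (h | ⟨_, h⟩)
    · exact Or.inl h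
    · exact Or.inr h
  · rintro (h | h)
    · exact Or.inl h
    · exact Or.inr ⟨rfl, h⟩

theorem closed_cl {A : Set J} (hA : Down A) : Closed (cl A) := by
  constructor
  · intro n hn
    rw [mem_cl_x] at hn
    exact ⟨mem_cl_x.2 (hA n hn).1, mem_cl_y.2 (hA n hn).2⟩
  · rintro ⟨n, h1, h2⟩
    exact mem_cl_p.2 (Or.inr ⟨n, mem_cl_x.1 h1, fun i hi => mem_cl_y.1 (h2 i hi)⟩)

theorem cl_subset {A B : Set J} (h : A ⊆ B) (hB : Closed B) : cl A ⊆ B := by
  rintro q (hq | ⟨rfl, n, h1, h2⟩)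
  · exact h hq
  · exact hB.2 ⟨n, h h1, fun i hi => h (h2 i hi)⟩

theorem down_sUnion {S : Set (Set J)} (h : ∀ A ∈ S, Down A) : Down (⋃₀ S) := by
  rintro n ⟨A, hA, hn⟩
  exact ⟨⟨A, hA, (h A hA n hn).1⟩, ⟨A, hA, (h A hA n hn).2⟩⟩

instance : Lattice CL where
  le A B := A.1 ⊆ B.1
  le_refl A := Set.Subset.refl A.1
  le_trans _ _ _ := Set.Subset.trans
  le_antisymm A B h1 h2 := Subtype.ext (Set.Subset.antisymm h1 h2)
  sup A B := ⟨cl (A.1 ∪ B.1), closed_cl (fun n hn => hn.elim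
    (fun h => ⟨Or.inl (A.2.1 n h).1, Or.inl (A.2.1 n h).2⟩)
    (fun h => ⟨Or.inr (B.2.1 n h).1, Or.inr (B.2.1 n h).2⟩))⟩
  inf A B := ⟨A.1 ∩ B.1, ⟨fun n hn => ⟨⟨(A.2.1 n hn.1).1, (B.2.1 n hn.2).1⟩,
    ⟨(A.2.1 n hn.1).2, (B.2.1 n hn.2).2⟩⟩, fun ⟨n, h1, h2⟩ =>
      ⟨A.2.2 ⟨n, h1.1, fun i hi => (h2 i hi).1⟩, B.2.2 ⟨n, h1.2, fun i hi => (h2 i hi).2⟩⟩⟩⟩
  le_sup_left A B := fun _ hq => Or.inl (Or.inl hq)
  le_sup_right A B := fun _ hq => Or.inl (Or.inr hq)
  sup_le _ _ C h1 h2 := cl_subset (Set.union_subset h1 h2) C.2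
  inf_le_left _ _ := Set.inter_subset_left
  inf_le_right _ _ := Set.inter_subset_right
  le_inf _ _ _ h1 h2 := Set.subset_inter h1 h2

theorem le_def {A B : CL} : A ≤ B ↔ A.1 ⊆ B.1 := Iff.rfl

/-- arbitrary joins -/
def sSupCL (S : Set CL) : CL :=
  ⟨cl (⋃₀ (Subtype.val '' S)), closed_cl (down_sUnion (by
    rintro _ ⟨A, _, rfl⟩
    exact A.2.1))⟩

theorem isLUB_sSupCL (S : Set CL) : IsLUB S (sSupCL S) := by
  constructor
  · intro A hA q hq
    exact Or.inl ⟨A.1, ⟨A, hA, rfl⟩, hq⟩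
  · intro B hB
    refine cl_subset ?_ B.2
    rintro q ⟨_, ⟨A, hA, rfl⟩, hq⟩
    exact hB hA hq

theorem exists_isGLB (S : Set CL) : ∃ s, IsGLB S s := by
  refine ⟨⟨{q | ∀ A ∈ S, q ∈ A.1}, ?_, ?_⟩, ?_, ?_⟩
  · intro n hn
    exact ⟨fun A hA => (A.2.1 n (hn A hA)).1, fun A hA => (A.2.1 n (hn A hA)).2⟩
  · rintro ⟨n, h1, h2⟩ A hA
    exact A.2.2 ⟨n, h1 A hA, fun i hi => h2 i hi A hA⟩
  · intro A hA q hq
    exact hq A hA
  · intro B hB q hq A hA
    exact hB hA hq

/-- the principal down-sets -/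
def pt : J → Set J
  | .p => {.p}
  | .x n => {q | (∃ m, n ≤ m ∧ q = .x m) ∨ ∃ m, n < m ∧ q = .y m}
  | .y n => {.y n}

theorem self_mem_pt (q : J) : q ∈ pt q := by
  cases q with
  | p => exact rfl
  | x n => exact Or.inl ⟨n, le_rfl, rfl⟩
  | y n => exact rfl

theorem pt_subset {A : Set J} (hA : Down A) {q : J} (hq : q ∈ A) : pt q ⊆ A := by
  cases q with
  | p => rintro _ rfl; exact hq
  | y n => rintro _ rfl; exact hq
  | x n =>
    have key : ∀ k, J.x (n + k) ∈ A := by
      intro k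
      induction k with
      | zero => exact hq
      | succ k ih => exact (hA _ ih).1
    rintro _ (⟨m, hm, rfl⟩ | ⟨m, hm, rfl⟩)
    · have := key (m - n)
      rwa [show n + (m - n) = m by omega] at this
    · have := (hA _ (key (m - 1 - n))).2
      rwa [show n + (m - 1 - n) + 1 = m by omega] at this

theorem y_mem_pt_x {n m : ℕ} : J.y m ∈ pt (.x n) ↔ n < m := by
  constructor
  · rintro (⟨k, _, h⟩ | ⟨k, hk, h⟩)
    · cases h
    · cases h; exact hk
  · intro h
    exact Or.inr ⟨m, h, rfl⟩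

theorem x_mem_pt_x {n m : ℕ} : J.x m ∈ pt (.x n) ↔ n ≤ m := by
  constructor
  · rintro (⟨k, hk, h⟩ | ⟨k, _, h⟩)
    · cases h; exact hk
    · cases h
  · intro h
    exact Or.inl ⟨m, h, rfl⟩

theorem not_rule_of_not_y {A : Set J} (h : J.y 0 ∉ A) : ¬ Rule A := by
  rintro ⟨n, _, h2⟩
  exact h (h2 0 (Nat.zero_le _))

theorem not_rule_of_not_x {A : Set J} (h : ∀ n, J.x n ∉ A) : ¬ Rule A := by
  rintro ⟨n, h1, _⟩
  exact h n h1

theorem closed_pt (q : J) : Closed (pt q) := by
  cases q with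
  | p =>
    refine ⟨fun n hn => ?_, fun _ => rfl⟩
    cases hn
  | y n =>
    refine ⟨fun n hn => ?_, fun h => absurd h (not_rule_of_not_x fun n hn => ?_)⟩
    · cases hn
    · cases hn
  | x n =>
    refine ⟨fun m hm => ?_, fun h => absurd h (not_rule_of_not_y fun h0 => ?_)⟩
    · rw [x_mem_pt_x] at hm
      exact ⟨x_mem_pt_x.2 (by omega), y_mem_pt_x.2 (by omega)⟩
    · rw [y_mem_pt_x] at h0
      omega

/-- the points of `CL` -/
def Pt (q : J) : CL := ⟨pt q, closed_pt q⟩

theorem pt_le {A : CL} {q : J} : Pt q ≤ A ↔ q ∈ A.1 :=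
  ⟨fun h => h (self_mem_pt q), fun h => pt_subset A.2.1 h⟩

theorem closed_pt_diff (q : J) : Closed (pt q \ {q}) := by
  cases q with
  | p =>
    have : pt .p \ {.p} = ∅ := by simp [pt]
    rw [this]
    exact ⟨fun n hn => absurd hn (Set.notMem_empty _), fun ⟨n, h, _⟩ => absurd h (Set.notMem_empty _)⟩
  | y n =>
    have : pt (.y n) \ {.y n} = ∅ := by simp [pt]
    rw [this]
    exact ⟨fun n hn => absurd hn (Set.notMem_empty _), fun ⟨n, h, _⟩ => absurd h (Set.notMem_empty _)⟩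
  | x n =>
    refine ⟨fun m hm => ?_, fun h => absurd h (not_rule_of_not_y fun h0 => ?_)⟩
    · obtain ⟨h1, h2⟩ := hm
      rw [x_mem_pt_x] at h1
      refine ⟨⟨x_mem_pt_x.2 (by omega), ?_⟩, ⟨y_mem_pt_x.2 (by omega), ?_⟩⟩
      · intro h3
        have h4 : J.x (m + 1) = J.x n := h3
        rw [J.x.injEq] at h4
        omega
      · intro h3
        have h4 : J.y (m + 1) = J.x n := h3
        cases h4
    · have h1 := h0.1
      rw [y_mem_pt_x] at h1
      omega

theorem isPoint_Pt (q : J) : IsPoint (Pt q) := by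
  refine ⟨⟨pt q \ {q}, closed_pt_diff q⟩, ?_, ?_⟩
  · constructor
    · exact Set.sdiff_subset
    · intro h
      exact (h (self_mem_pt q)).2 rfl
  · rintro B ⟨h1, h2⟩ a ha
    refine ⟨h1 ha, ?_⟩
    rintro rfl
    exact h2 (pt_subset B.2.1 ha)

theorem isCompact_Pt (q : J) : IsCompactElt (Pt q) := by
  intro D s hne hdir hs hle
  have hs' : s = sSupCL D := hs.unique (isLUB_sSupCL D)
  have hq : q ∈ cl (⋃₀ (Subtype.val '' D)) := by
    have := hle (self_mem_pt q)
    rw [hs'] at this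
    exact this
  rcases hq with ⟨_, ⟨A, hA, rfl⟩, hq⟩ | ⟨rfl, n, ⟨_, ⟨A, hA, rfl⟩, hx⟩, hy⟩
  · exact ⟨A, hA, pt_le.2 hq⟩
  · -- collect the finitely many elements
    have key : ∀ k, (∀ i < k, J.y i ∈ ⋃₀ (Subtype.val '' D)) →
        ∃ B ∈ D, J.x n ∈ B.1 ∧ ∀ i < k, J.y i ∈ B.1 := by
      intro k
      induction k with
      | zero => exact fun _ => ⟨A, hA, hx, fun i hi => absurd hi (Nat.not_lt_zero _)⟩
      | succ k ih =>
        intro hk
        obtain ⟨B, hB, h1, h2⟩ := ih fun i hi => hk i (by omega)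
        obtain ⟨_, ⟨C, hC, rfl⟩, hyC⟩ := hk k (by omega)
        obtain ⟨E, hE, h3, h4⟩ := hdir B hB C hC
        refine ⟨E, hE, h3 h1, fun i hi => ?_⟩
        rcases Nat.lt_succ_iff_lt_or_eq.1 hi with hi | rfl
        · exact h3 (h2 i hi)
        · exact h4 hyC
    obtain ⟨B, hB, h1, h2⟩ := key (n + 1) fun i hi => hy i (by omega)
    exact ⟨B, hB, pt_le.2 (B.2.2 ⟨n, h1, fun i hi => h2 i (by omega)⟩)⟩

theorem isLUB_points (A : CL) : IsLUB {B | ∃ q ∈ A.1, B = Pt q} A := by
  constructor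
  · rintro _ ⟨q, hq, rfl⟩
    exact pt_le.2 hq
  · intro B hB q hq
    exact hB ⟨q, hq, rfl⟩ (self_mem_pt q)

theorem CL_spatial : IsSpatial CL := fun A =>
  ⟨{B | ∃ q ∈ A.1, B = Pt q}, by rintro _ ⟨q, _, rfl⟩; exact isPoint_Pt q, isLUB_points A⟩

theorem CL_algebraic : IsAlgebraic CL :=
  ⟨fun S => ⟨⟨_, isLUB_sSupCL S⟩, exists_isGLB S⟩, fun A =>
    ⟨{B | ∃ q ∈ A.1, B = Pt q}, by rintro _ ⟨q, _, rfl⟩; exact isCompact_Pt q, isLUB_points A⟩⟩

/-! ### The identities hold in `L` -/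

/-- membership in a join of finitely many elements -/
theorem mem_join (m : ℕ) (f : ℕ → LTerm) (a : ℕ → CL) (q : J)
    (hq : q ∈ ((join m f).eval a).1) :
    (∃ i ≤ m, q ∈ ((f i).eval a).1) ∨ (q = J.p ∧ Rule {q | ∃ i ≤ m, q ∈ ((f i).eval a).1}) := by
  have hdown : Down {q | ∃ i ≤ m, q ∈ ((f i).eval a).1} := by
    rintro n ⟨i, hi, hn⟩
    exact ⟨⟨i, hi, (((f i).eval a).2.1 n hn).1⟩, ⟨i, hi, (((f i).eval a).2.1 n hn).2⟩⟩
  have h : (join m f).eval a ≤ (⟨_, closed_cl hdown⟩ : CL) := by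
    refine (join_le a m f _).2 ?_
    intro i hi q hq
    exact Or.inl ⟨i, hi, hq⟩
  exact h hq

theorem mem_join_of {m : ℕ} {f : ℕ → LTerm} {a : ℕ → CL} {q : J} {i : ℕ} (hi : i ≤ m)
    (hq : q ∈ ((f i).eval a).1) : q ∈ ((join m f).eval a).1 :=
  (join_le a m f _).1 le_rfl i hi hq

theorem rule_mono_x {A : Set J} (hA : Down A) {n m : ℕ} (hn : J.x n ∈ A)
    (hy : ∀ i ≤ n, J.y i ∈ A) (hnm : n ≤ m) : J.x m ∈ A ∧ ∀ i ≤ m, J.y i ∈ A := by
  have h1 := pt_subset hA hn
  refine ⟨h1 (x_mem_pt_x.2 hnm), fun i hi => ?_⟩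
  by_cases h : i ≤ n
  · exact hy i h
  · exact h1 (y_mem_pt_x.2 (by omega))

theorem identity_CL (m k : ℕ) : HoldsIn CL (inf (lhs m k) (rhs m k)) (lhs m k) := by
  intro a
  simp only [eval]
  apply inf_eq_left.2
  rintro q ⟨hr, hu, hz⟩
  have hu' := mem_join m vu a q hu
  have hz' := mem_join k vz a q hz
  rcases hu' with ⟨i, hi, hqi⟩ | ⟨rfl, n1, hx1, hy1⟩
  · refine Or.inl (Or.inl ?_)
    exact mem_join_of (f := fun i => inf vr (vu i)) hi ⟨hr, hqi⟩
  rcases hz' with ⟨j, hj, hqj⟩ | ⟨_, n2, hx2, hy2⟩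
  · refine Or.inl (Or.inr ?_)
    refine Or.inl (Or.inl ?_)
    exact mem_join_of (f := fun j => inf vr (vz j)) hj ⟨hr, hqj⟩
  · refine Or.inl (Or.inr (Or.inl (Or.inr ⟨hr, ?_⟩)))
    -- use the rule with the maximum of `n1` and `n2`
    have hd1 : Down {q | ∃ i ≤ m, q ∈ ((vu i).eval a).1} := by
      rintro n ⟨i, hi, hn⟩
      exact ⟨⟨i, hi, (((vu i).eval a).2.1 n hn).1⟩, ⟨i, hi, (((vu i).eval a).2.1 n hn).2⟩⟩
    have hd2 : Down {q | ∃ i ≤ k, q ∈ ((vz i).eval a).1} := by
      rintro n ⟨i, hi, hn⟩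
      exact ⟨⟨i, hi, (((vz i).eval a).2.1 n hn).1⟩, ⟨i, hi, (((vz i).eval a).2.1 n hn).2⟩⟩
    obtain ⟨ax, ay⟩ := rule_mono_x hd1 hx1 hy1 (le_max_left n1 n2)
    obtain ⟨bx, bz⟩ := rule_mono_x hd2 hx2 hy2 (le_max_right n1 n2)
    have key : ∀ q, (∃ i ≤ m, q ∈ ((vu i).eval a).1) → (∃ j ≤ k, q ∈ ((vz j).eval a).1) →
        q ∈ ((join m (fun i => join k (fun j => inf (vu i) (vz j)))).eval a).1 := by
      rintro q ⟨i, hi, h1⟩ ⟨j, hj, h2⟩
      exact mem_join_of (f := fun i => join k (fun j => inf (vu i) (vz j))) hi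
        (mem_join_of (f := fun j => inf (vu i) (vz j)) hj ⟨h1, h2⟩)
    exact ((join m (fun i => join k (fun j => inf (vu i) (vz j)))).eval a).2.2
      ⟨max n1 n2, key _ ax bx, fun i hi => key _ (ay i hi) (bz i hi)⟩

/-! ### The main argument -/

theorem eval_map {L : Type u} {M : Type v} [Lattice L] [Lattice M] (f : LatticeHom L M)
    (a : ℕ → L) (t : LTerm) : f (t.eval a) = t.eval (fun i => f (a i)) := by
  induction t with
  | var i => rfl
  | sup s t hs ht => simp only [eval, map_sup, hs, ht]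
  | inf s t hs ht => simp only [eval, map_inf, hs, ht]

theorem point_le_sup {M : Type u} [Lattice M] {r a b : M} (hr : IsPoint r) (ha : a ≤ r)
    (hb : b ≤ r) (h : r ≤ a ⊔ b) : r ≤ a ∨ r ≤ b := by
  obtain ⟨q, hq1, hq2⟩ := hr
  by_contra hcon
  push Not at hcon
  have h1 : a ≤ q := hq2 (lt_of_le_of_ne ha fun e => hcon.1 e.ge)
  have h2 : b ≤ q := hq2 (lt_of_le_of_ne hb fun e => hcon.2 e.ge)
  exact absurd (h.trans (sup_le h1 h2)) (not_le_of_gt hq1)

theorem point_le_join {M : Type u} [Lattice M] {r : M} (hr : IsPoint r) {m : ℕ} {g : ℕ → LTerm}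
    {a : ℕ → M} (hg : ∀ i ≤ m, (g i).eval a ≤ r) (h : r ≤ (join m g).eval a) :
    ∃ i ≤ m, r ≤ (g i).eval a := by
  obtain ⟨q, hq1, hq2⟩ := hr
  by_contra hcon
  push Not at hcon
  have h1 : (join m g).eval a ≤ q := by
    rw [join_le]
    intro i hi
    exact hq2 (lt_of_le_of_ne (hg i hi) fun e => hcon i hi e.ge)
  exact absurd (h.trans h1) (not_le_of_gt hq1)

/-- the least element of `CL` -/
def o : CL := ⟨∅, fun _ h => absurd h (Set.notMem_empty _),
  fun ⟨_, h, _⟩ => absurd h (Set.notMem_empty _)⟩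

/-- the elements of the join-cover `x_n, y_0, …, y_n` -/
def Z (n : ℕ) (j : ℕ) : CL := if j = 0 then Pt (.x n) else Pt (.y (j - 1))

theorem p_notMem_Z (n j : ℕ) : J.p ∉ (Z n j).1 := by
  unfold Z
  split_ifs
  · rintro (⟨m, _, h⟩ | ⟨m, _, h⟩) <;> cases h
  · intro h
    cases h

/-- the closed set generated by `x_j, y_{j-1}, …, y_0` -/
def E (j : ℕ) : CL :=
  ⟨{q | q ∈ pt (.x j) ∨ ∃ i < j, q = .y i}, by
    constructor
    · rintro n (hn | ⟨i, _, hn⟩)
      · rw [x_mem_pt_x] at hn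
        exact ⟨Or.inl (x_mem_pt_x.2 (by omega)), Or.inl (y_mem_pt_x.2 (by omega))⟩
      · cases hn
    · rintro ⟨n, hx | ⟨i, _, hx⟩, hy⟩
      · exfalso
        rw [x_mem_pt_x] at hx
        rcases hy j hx with h | ⟨i, hi, h⟩
        · rw [y_mem_pt_x] at h
          omega
        · cases h
          omega
      · cases hx⟩

theorem p_notMem_E (j : ℕ) : J.p ∉ (E j).1 := by
  rintro ((⟨m, _, h⟩ | ⟨m, _, h⟩) | ⟨i, _, h⟩) <;> cases h

theorem main (M : Type u) [Lattice M] (hM : IsStronglySpatial M) (f : LatticeHom CL M)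
    (hf : Function.Injective f) (hid : ∀ s t : LTerm, HoldsIn CL s t → HoldsIn M s t) :
    False := by
  have hle : ∀ A B : CL, f A ≤ f B → A ≤ B := by
    intro A B h
    have h1 : f (A ⊓ B) = f A := by rw [map_inf]; exact inf_eq_left.2 h
    exact inf_eq_left.1 (hf h1)
  have hmono : ∀ A B : CL, A ≤ B → f A ≤ f B := fun A B h => OrderHomClass.mono f h
  -- the point `r`
  obtain ⟨r, hr, hrp, hro⟩ : ∃ r : M, IsPoint r ∧ r ≤ f (Pt .p) ∧ ¬ r ≤ f o := by
    obtain ⟨S, hS1, hS2⟩ := hM.1 (f (Pt .p))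
    by_contra hcon
    push Not at hcon
    have h1 : f (Pt .p) ≤ f o := hS2.2 fun r hr => hcon r (hS1 r hr) (hS2.1 hr)
    have h2 := hle _ _ h1 (self_mem_pt .p)
    exact absurd h2 (Set.notMem_empty _)
  have hrA : ∀ A : CL, r ≤ f A → J.p ∈ A.1 := by
    intro A hA
    by_contra hp
    apply hro
    have h1 : r ≤ f (Pt .p ⊓ A) := by rw [map_inf]; exact le_inf hrp hA
    have h2 : Pt .p ⊓ A ≤ o := by
      rintro q ⟨hq1, hq2⟩
      have hq3 : q = J.p := hq1
      rw [hq3] at hq2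
      exact absurd hq2 hp
    exact h1.trans (hmono _ _ h2)
  -- the minimal join-cover
  have hcov : IsJoinCover {f (Pt (.x 0)), f (Pt (.y 0))} r := by
    refine ⟨Set.toFinite _, f (Pt (.x 0)) ⊔ f (Pt (.y 0)), isLUB_pair, ?_⟩
    rw [← map_sup]
    refine hrp.trans (hmono _ _ (pt_le.2 ?_))
    refine Or.inr ⟨rfl, 0, Or.inl (self_mem_pt (.x 0)), fun i hi => ?_⟩
    rw [Nat.le_zero.1 hi]
    exact Or.inr (self_mem_pt (.y 0))
  obtain ⟨I, ⟨⟨hfin, sI, hsI, hrI⟩, hmin⟩, _, hIref⟩ := hM.2 r hr _ hcov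
  have hne : I.Nonempty := by
    by_contra hemp
    rw [Set.not_nonempty_iff_eq_empty] at hemp
    apply hro
    refine hrI.trans (hsI.2 ?_)
    rw [hemp]
    intro x hx
    exact absurd hx (Set.notMem_empty _)
  obtain ⟨m, w, hw⟩ : ∃ (m : ℕ) (w : ℕ → M), ∀ x, x ∈ I ↔ ∃ i ≤ m, x = w i := by
    obtain ⟨n, g, hg⟩ := hfin.fin_embedding
    have hn : 0 < n := by
      obtain ⟨x, hx⟩ := hne
      rw [← hg] at hx
      obtain ⟨i, _⟩ := hx
      exact Nat.lt_of_le_of_lt (Nat.zero_le _) i.2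
    refine ⟨n - 1, fun i => if h : i < n then g ⟨i, h⟩ else g ⟨0, hn⟩, fun x => ?_⟩
    rw [← hg]
    constructor
    · rintro ⟨i, rfl⟩
      exact ⟨i, by omega, by simp⟩
    · rintro ⟨i, hi, rfl⟩
      have : i < n := by omega
      exact ⟨⟨i, this⟩, by simp [this]⟩
  -- `I` refines all join-covers `x_n, y_0, …, y_n`
  have step : ∀ n, ∀ x ∈ I, ∃ j ≤ n + 1, x ≤ f (Z n j) := by
    intro n
    let a : ℕ → M := fun k => if k = 0 then r else if k % 2 = 1 then w ((k - 1) / 2)
      else f (Z n ((k - 2) / 2))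
    have ar : vr.eval a = r := rfl
    have au : ∀ i, (vu i).eval a = w i := by
      intro i
      show (if 2 * i + 1 = 0 then r else if (2 * i + 1) % 2 = 1 then w ((2 * i + 1 - 1) / 2)
        else f (Z n ((2 * i + 1 - 2) / 2))) = w i
      rw [if_neg (by omega), if_pos (by omega)]
      congr 1
      omega
    have az : ∀ j, (vz j).eval a = f (Z n j) := by
      intro j
      show (if 2 * j + 2 = 0 then r else if (2 * j + 2) % 2 = 1 then w ((2 * j + 2 - 1) / 2)
        else f (Z n ((2 * j + 2 - 2) / 2))) = f (Z n j)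
      rw [if_neg (by omega), if_neg (by omega)]
      have : (2 * j + 2 - 2) / 2 = j := by omega
      rw [this]
    have h1 : r ≤ (join m vu).eval a := by
      refine hrI.trans (hsI.2 ?_)
      intro x hx
      obtain ⟨i, hi, rfl⟩ := (hw x).1 hx
      rw [← au i]
      exact (join_le a m vu _).1 le_rfl i hi
    have h2 : r ≤ (join (n + 1) vz).eval a := by
      let b : ℕ → CL := fun k => Z n ((k - 2) / 2)
      have bz : ∀ j, (vz j).eval b = Z n j := by
        intro j
        show Z n ((2 * j + 2 - 2) / 2) = Z n j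
        have : (2 * j + 2 - 2) / 2 = j := by omega
        rw [this]
      have h3 : J.p ∈ ((join (n + 1) vz).eval b).1 := by
        apply ((join (n + 1) vz).eval b).2.2
        refine ⟨n, ?_, fun i hi => ?_⟩
        · apply mem_join_of (i := 0) (Nat.zero_le _)
          rw [bz]
          exact self_mem_pt (.x n)
        · apply mem_join_of (i := i + 1) (by omega)
          rw [bz]
          exact self_mem_pt (.y i)
      have h4 : f ((join (n + 1) vz).eval b) ≤ (join (n + 1) vz).eval a := by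
        rw [eval_map, join_le]
        intro j hj
        have h5 : (vz j).eval (fun i => f (b i)) = (vz j).eval a := by
          rw [← eval_map, bz, az]
        rw [h5]
        exact (join_le a (n + 1) vz _).1 le_rfl j hj
      exact (hrp.trans (hmono _ _ (pt_le.2 h3))).trans h4
    have h3 : r ≤ (rhs m (n + 1)).eval a := by
      have h4 := hid _ _ (identity_CL m (n + 1)) a
      simp only [eval] at h4
      have h5 := inf_eq_left.1 h4
      refine le_trans ?_ h5
      exact le_inf le_rfl (le_inf h1 h2)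
    -- `r` is a point
    have h4 : r ≤ (join m (fun i => join (n + 1) (fun j => inf (vu i) (vz j)))).eval a := by
      have e1 : (join m (fun i => inf vr (vu i))).eval a ≤ r :=
        (join_le _ _ _ _).2 fun i _ => inf_le_left
      have e2 : (join (n + 1) (fun j => inf vr (vz j))).eval a ≤ r :=
        (join_le _ _ _ _).2 fun i _ => inf_le_left
      have e3 : (inf vr (join m (fun i => join (n + 1) (fun j => inf (vu i) (vz j))))).eval a ≤ r :=
        inf_le_left
      rcases point_le_sup hr e1 (sup_le e2 e3) h3 with h | h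
      · exfalso
        obtain ⟨i, hi, h⟩ := point_le_join hr (fun i _ => inf_le_left) h
        have h' : r ≤ w i := by
          rw [← au i]
          exact h.trans inf_le_right
        obtain ⟨y, hy, hle'⟩ := hIref (w i) ((hw _).2 ⟨i, hi, rfl⟩)
        rcases hy with rfl | rfl
        · exact p_notMem_Z 0 0 (hrA (Pt (.x 0)) (h'.trans hle'))
        · exact p_notMem_Z 0 1 (hrA (Pt (.y 0)) (h'.trans hle'))
      · rcases point_le_sup hr e2 e3 h with h | h
        · exfalso
          obtain ⟨j, hj, h⟩ := point_le_join hr (fun i _ => inf_le_left) h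
          have h' : r ≤ f (Z n j) := by
            rw [← az j]
            exact h.trans inf_le_right
          exact p_notMem_Z n j (hrA _ h')
        · exact h.trans inf_le_right
    -- the refined join-cover
    have hY : IsJoinCover {x | ∃ i ≤ m, ∃ j ≤ n + 1, x = w i ⊓ f (Z n j)} r := by
      refine ⟨?_, _, ⟨?_, ?_⟩, h4⟩
      · have : {x | ∃ i ≤ m, ∃ j ≤ n + 1, x = w i ⊓ f (Z n j)} ⊆
            (fun q : ℕ × ℕ => w q.1 ⊓ f (Z n q.2)) '' (Set.Iic m ×ˢ Set.Iic (n + 1)) := by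
          rintro x ⟨i, hi, j, hj, rfl⟩
          exact ⟨(i, j), ⟨hi, hj⟩, rfl⟩
        exact (((Set.finite_Iic m).prod (Set.finite_Iic (n + 1))).image _).subset this
      · rintro x ⟨i, hi, j, hj, rfl⟩
        have h5 := (join_le a m (fun i => join (n + 1) (fun j => inf (vu i) (vz j))) _).1 le_rfl i hi
        have h6 := (join_le a (n + 1) (fun j => inf (vu i) (vz j)) _).1 h5 j hj
        have h7 : (inf (vu i) (vz j)).eval a = w i ⊓ f (Z n j) := by
          show (vu i).eval a ⊓ (vz j).eval a = _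
          rw [au, az]
        rw [h7] at h6
        exact h6
      · intro b hb
        rw [join_le]
        intro i hi
        rw [join_le]
        intro j hj
        have h7 : (inf (vu i) (vz j)).eval a = w i ⊓ f (Z n j) := by
          show (vu i).eval a ⊓ (vz j).eval a = _
          rw [au, az]
        rw [h7]
        exact hb ⟨i, hi, j, hj, rfl⟩
    have hYref : Refines {x | ∃ i ≤ m, ∃ j ≤ n + 1, x = w i ⊓ f (Z n j)} I := by
      rintro x ⟨i, hi, j, _, rfl⟩
      exact ⟨w i, (hw _).2 ⟨i, hi, rfl⟩, inf_le_left⟩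
    intro x hx
    obtain ⟨i, _, j, hj, hxe⟩ := hmin _ hY hYref hx
    exact ⟨j, hj, by rw [hxe]; exact inf_le_right⟩
  -- for every `j` some element of `I` lies below `y_j`
  have step2 : ∀ j : ℕ, ∃ x ∈ I, x ≤ f (Pt (.y j)) ∧ ¬ x ≤ f o := by
    intro j
    by_contra hcon
    push Not at hcon
    apply p_notMem_E j
    apply hrA
    refine hrI.trans (hsI.2 ?_)
    intro x hx
    have ho : f o ≤ f (E j) := hmono _ _ fun q hq => absurd hq (Set.notMem_empty _)
    obtain ⟨i, hi, hxi⟩ := step j x hx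
    unfold Z at hxi
    split_ifs at hxi with h0
    · exact hxi.trans (hmono _ _ fun q hq => Or.inl hq)
    · by_cases hij : i - 1 = j
      · rw [hij] at hxi
        exact (hcon x hx hxi).trans ho
      · refine hxi.trans (hmono _ _ (pt_le.2 (Or.inr ⟨i - 1, ?_, rfl⟩)))
        omega
  choose g hgI hg1 hg2 using step2
  have hinj : Function.Injective g := by
    intro i j hij
    by_contra hne'
    apply hg2 i
    have h1 : g i ≤ f (Pt (.y i) ⊓ Pt (.y j)) := by
      rw [map_inf]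
      refine le_inf (hg1 i) ?_
      rw [hij]
      exact hg1 j
    refine h1.trans (hmono _ _ ?_)
    rintro q ⟨hq1, hq2⟩
    have e1 : q = J.y i := hq1
    have e2 : q = J.y j := hq2
    rw [e1] at e2
    cases e2
    exact absurd rfl hne'
  exact Set.infinite_of_injective_forall_mem hinj hgI hfin

/-- **Theorem.**  There is an algebraic spatial lattice that does not embed, within its variety,
into any strongly spatial lattice. -/
theorem result : ∃ (L : Type) (_ : Lattice L), IsAlgebraic L ∧ IsSpatial L ∧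
    ∀ (M : Type u) [Lattice M], IsStronglySpatial M → ¬ EmbedsWithinVariety L M :=
  ⟨CL, inferInstance, CL_algebraic, CL_spatial, fun M _ hM ⟨⟨f, hf⟩, hid⟩ => main M hM f hf hid⟩

end Pool.Agent.Results.MP_de5398_al.NotStronglySpatial
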